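import Pool.Agent.Y80.KM.HStruct

set_option autoImplicit false

open scoped BigOperators

/-! Project KM, job PROD: the coefficients of the product over a finite set of basis vectors. -/

namespace Pool.Agent.Y779.KM

open Pool.Agent.Y80.KM

theorem prod_mono {I Γ' : Type*} [AddCommMonoid Γ'] (S : Finset I) (deg : I → ℕ) (w : I → Γ') :
    ∏ i ∈ S, (PowerSeries.monomial (deg i) (AddMonoidAlgebra.single (w i) (1 : ℤ))) =
      PowerSeries.monomial (∑ i ∈ S, deg i) (AddMonoidAlgebra.single (∑ i ∈ S, w i) (1 : ℤ)) := by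
  classical
  induction S using Finset.induction_on with
  | empty =>
    simp only [Finset.prod_empty, Finset.sum_empty]
    rw [← AddMonoidAlgebra.one_def, PowerSeries.monomial_zero_eq_C_apply, map_one]
  | insert a s ha ih =>
    rw [Finset.prod_insert ha, Finset.sum_insert ha, Finset.sum_insert ha, ih,
      PowerSeries.monomial_mul_monomial, AddMonoidAlgebra.single_mul_single, one_mul]

theorem eprod_coeff {I Γ' : Type*} [DecidableEq I] [AddCommMonoid Γ'] (F : Finset I)
    (deg : I → ℕ) (w : I → Γ') (n : ℕ) (g : Γ') :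
    (PowerSeries.coeff n (eprod F deg w)).coeff g =
      ∑ p ∈ Finset.range (F.card + 1), (-1) ^ p *
        ({S : Finset I | S ⊆ F ∧ S.card = p ∧ ∑ i ∈ S, deg i = n ∧ ∑ i ∈ S, w i = g}.ncard : ℤ) := by
  classical
  have h1 : eprod F deg w = ∑ S ∈ F.powerset, PowerSeries.monomial (∑ i ∈ S, deg i)
      (AddMonoidAlgebra.single (∑ i ∈ S, w i) ((-1 : ℤ) ^ S.card)) := by
    have e : ∀ i ∈ F, (1 : PowerSeries (AddMonoidAlgebra ℤ Γ')) -
        PowerSeries.monomial (deg i) (AddMonoidAlgebra.single (w i) (1 : ℤ)) =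
        (-PowerSeries.monomial (deg i) (AddMonoidAlgebra.single (w i) (1 : ℤ))) + 1 := by
      intro i _
      ring
    rw [eprod, Finset.prod_congr rfl e, Finset.prod_add]
    apply Finset.sum_congr rfl
    intro S _
    rw [Finset.prod_const_one, mul_one, Finset.prod_neg, prod_mono]
    have e2 : ((-1 : PowerSeries (AddMonoidAlgebra ℤ Γ'))) ^ S.card =
        ((((-1 : ℤ) ^ S.card : ℤ)) : PowerSeries (AddMonoidAlgebra ℤ Γ')) := by push_cast; rfl
    rw [e2, ← zsmul_eq_mul, ← map_zsmul]
    congr 1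
    rw [AddMonoidAlgebra.smul_single, smul_eq_mul, mul_one]
  have h2 : (PowerSeries.coeff n (eprod F deg w)).coeff g =
      ∑ S ∈ F.powerset, if ∑ i ∈ S, deg i = n ∧ ∑ i ∈ S, w i = g then (-1 : ℤ) ^ S.card else 0 := by
    rw [h1, map_sum, AddMonoidAlgebra.coeff_sum, Finsupp.finsetSum_apply]
    apply Finset.sum_congr rfl
    intro S _
    rw [PowerSeries.coeff_monomial]
    by_cases ha : n = ∑ i ∈ S, deg i
    · rw [if_pos ha]
      by_cases hb : ∑ i ∈ S, w i = g
      · rw [if_pos ⟨ha.symm, hb⟩]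
        simp [hb]
      · rw [if_neg (fun h => hb h.2)]
        simp [hb]
    · rw [if_neg ha, if_neg (fun h => ha h.1.symm)]
      simp
  rw [h2, ← Finset.sum_fiberwise_of_maps_to (s := F.powerset) (t := Finset.range (F.card + 1))
    (g := Finset.card)]
  · apply Finset.sum_congr rfl
    intro p _
    have e3 : ∀ S ∈ F.powerset.filter (fun S => S.card = p),
        (if ∑ i ∈ S, deg i = n ∧ ∑ i ∈ S, w i = g then (-1 : ℤ) ^ S.card else 0) =
        if ∑ i ∈ S, deg i = n ∧ ∑ i ∈ S, w i = g then (-1 : ℤ) ^ p else 0 := by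
      intro S hS
      rw [(Finset.mem_filter.1 hS).2]
    rw [Finset.sum_congr rfl e3, ← Finset.sum_filter, Finset.sum_const, nsmul_eq_mul, mul_comm]
    congr 1
    norm_cast
    rw [← Set.ncard_coe_finset]
    congr 1
    ext S
    simp only [Finset.coe_filter, Finset.mem_filter, Finset.mem_powerset, Set.mem_ofPred_eq]
    tauto
  · intro S hS
    rw [Finset.mem_range]
    have := Finset.card_le_card (Finset.mem_powerset.1 hS)
    omega

end Pool.Agent.Y779.KM
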