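import Pool.Agent.Y80.KM.Defs2

set_option autoImplicit false

open scoped BigOperators DirectSum

/-! Project KM, job BGR: the grading of the space `B(A)`. -/

namespace Pool.Agent.Y779.KM

open Pool.Agent.Y80.KM

section BGR

variable {k A : Type*} [Field k] [NonUnitalNonAssocRing A] [Module k A] (𝒜 : ℕ → Submodule k A)

theorem wedge_mem {i j : ℕ} {a b : A} (ha : a ∈ 𝒜 i) (hb : b ∈ 𝒜 j) :
    wedge k A a b ∈ bcomp 𝒜 (i + j) :=
  Submodule.subset_span ⟨i, j, rfl, a, ha, b, hb, rfl⟩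

theorem mem_iSup_bcomp (h : ⨆ n, 𝒜 n = ⊤) (a b : A) : wedge k A a b ∈ ⨆ n, bcomp 𝒜 n := by
  have ha : a ∈ ⨆ n, 𝒜 n := by rw [h]; exact Submodule.mem_top
  have hb : b ∈ ⨆ n, 𝒜 n := by rw [h]; exact Submodule.mem_top
  induction ha using Submodule.iSup_induction' with
  | mem i x hx =>
    induction hb using Submodule.iSup_induction' with
    | mem j y hy => exact Submodule.mem_iSup_of_mem (i + j) (wedge_mem 𝒜 hx hy)
    | zero => rw [map_zero]; exact zero_mem _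
    | add y z _ _ hy hz => rw [map_add]; exact add_mem hy hz
  | zero => rw [map_zero, LinearMap.zero_apply]; exact zero_mem _
  | add y z _ _ hy hz => rw [map_add, LinearMap.add_apply]; exact add_mem hy hz

theorem iSup_bcomp (h : ⨆ n, 𝒜 n = ⊤) : ⨆ n, bcomp 𝒜 n = ⊤ := by
  rw [eq_top_iff]
  rintro x -
  obtain ⟨t, rfl⟩ := Submodule.mkQ_surjective _ x
  induction t using TensorProduct.induction_on with
  | zero => rw [map_zero]; exact zero_mem _
  | tmul a b => exact mem_iSup_bcomp 𝒜 h a b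
  | add u v hu hv => rw [map_add]; exact add_mem hu hv

/-- the Euler operator -/
theorem exists_euler (h : DirectSum.IsInternal 𝒜) :
    ∃ E : A →ₗ[k] A, ∀ n, ∀ a ∈ 𝒜 n, E a = (n : k) • a := by
  let e : (⨁ n, 𝒜 n) ≃ₗ[k] A := LinearEquiv.ofBijective (DirectSum.coeLinearMap 𝒜) h
  refine ⟨(DirectSum.toModule k ℕ A fun n => (n : k) • (𝒜 n).subtype) ∘ₗ e.symm.toLinearMap, ?_⟩
  intro n a ha
  have h1 : e (DirectSum.lof k ℕ (fun n => 𝒜 n) n ⟨a, ha⟩) = a := by
    simp only [e]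
    exact DirectSum.coeLinearMap_lof _ _ _
  have h2 : e.symm a = DirectSum.lof k ℕ (fun n => 𝒜 n) n ⟨a, ha⟩ := by
    rw [LinearEquiv.symm_apply_eq, h1]
  rw [LinearMap.comp_apply, LinearEquiv.coe_coe, h2, DirectSum.toModule_lof]
  rfl

theorem euler_mul [IsScalarTower k A A] [SMulCommClass k A A] (h : ⨆ n, 𝒜 n = ⊤)
    (hm : ∀ m n, ∀ x ∈ 𝒜 m, ∀ y ∈ 𝒜 n, x * y ∈ 𝒜 (m + n)) {E : A →ₗ[k] A}
    (hE : ∀ n, ∀ a ∈ 𝒜 n, E a = (n : k) • a) (x y : A) : E (x * y) = E x * y + x * E y := by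
  have hx : x ∈ ⨆ n, 𝒜 n := by rw [h]; exact Submodule.mem_top
  have hy : y ∈ ⨆ n, 𝒜 n := by rw [h]; exact Submodule.mem_top
  induction hx using Submodule.iSup_induction' with
  | mem i x hx =>
    induction hy using Submodule.iSup_induction' with
    | mem j y hy =>
      rw [hE _ _ (hm i j x hx y hy), hE i x hx, hE j y hy, smul_mul_assoc, mul_smul_comm,
        ← add_smul]
      push_cast
      rfl
    | zero => simp
    | add y z _ _ hy hz => rw [mul_add, map_add, map_add, mul_add, mul_add, hy, hz]; abel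
  | zero => simp
  | add y z _ _ hy hz => rw [add_mul, map_add, map_add, add_mul, add_mul, hy, hz]; abel

theorem bDer_bcomp {E : A →ₗ[k] A} (hE : ∀ n, ∀ a ∈ 𝒜 n, E a = (n : k) • a)
    (hd : ∀ x y, E (x * y) = E x * y + x * E y) {n : ℕ} {x : BSp k A} (hx : x ∈ bcomp 𝒜 n) :
    bDer E hd x = (n : k) • x := by
  induction hx using Submodule.span_induction with
  | mem x h =>
    obtain ⟨i, j, rfl, a, ha, b, hb, rfl⟩ := h
    rw [bDer_wedge, hE i a ha, hE j b hb, map_smul, map_smul, LinearMap.smul_apply, ← add_smul]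
    push_cast
    rfl
  | zero => simp
  | add x y _ _ hx hy => rw [map_add, hx, hy, smul_add]
  | smul c x _ hx => rw [map_smul, hx, smul_comm]

theorem bcomp_internal' [CharZero k] [IsScalarTower k A A] [SMulCommClass k A A] (h : DirectSum.IsInternal 𝒜)
    (hm : ∀ m n, ∀ x ∈ 𝒜 m, ∀ y ∈ 𝒜 n, x * y ∈ 𝒜 (m + n)) :
    DirectSum.IsInternal (bcomp 𝒜) := by
  have htop : ⨆ n, 𝒜 n = ⊤ := h.submodule_iSup_eq_top
  obtain ⟨E, hE⟩ := exists_euler 𝒜 h
  have hd := euler_mul 𝒜 htop hm hE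
  apply DirectSum.isInternal_submodule_of_iSupIndep_of_iSup_eq_top _ (iSup_bcomp 𝒜 htop)
  have h1 : iSupIndep fun n : ℕ => Module.End.eigenspace (bDer E hd) (n : k) :=
    (Module.End.eigenspaces_iSupIndep (bDer E hd)).comp Nat.cast_injective
  refine h1.mono ?_
  intro n x hx
  rw [Module.End.mem_eigenspace_iff]
  exact bDer_bcomp 𝒜 hE hd hx

theorem bcomp_finite' (h : ∀ n, FiniteDimensional k (𝒜 n)) (n : ℕ) :
    FiniteDimensional k (bcomp 𝒜 n) := by
  have h1 : bcomp 𝒜 n ≤ ⨆ p ∈ Finset.HasAntidiagonal.antidiagonal n,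
      Submodule.map₂ (wedge k A) (𝒜 p.1) (𝒜 p.2) := by
    rw [bcomp, Submodule.span_le]
    rintro x ⟨i, j, hij, a, ha, b, hb, rfl⟩
    have h2 : (i, j) ∈ Finset.HasAntidiagonal.antidiagonal n := Finset.HasAntidiagonal.mem_antidiagonal.2 hij
    exact (le_biSup (fun p : ℕ × ℕ => Submodule.map₂ (wedge k A) (𝒜 p.1) (𝒜 p.2)) h2)
      (Submodule.apply_mem_map₂ _ ha hb)
  have h3 : (⨆ p ∈ Finset.HasAntidiagonal.antidiagonal n,
      Submodule.map₂ (wedge k A) (𝒜 p.1) (𝒜 p.2)).FG := by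
    apply Submodule.fg_biSup
    intro p _
    exact Submodule.FG.map₂ _ (Module.Finite.iff_fg.1 (h p.1)) (Module.Finite.iff_fg.1 (h p.2))
  have h4 : FiniteDimensional k ↥(⨆ p ∈ Finset.HasAntidiagonal.antidiagonal n,
      Submodule.map₂ (wedge k A) (𝒜 p.1) (𝒜 p.2)) := Module.Finite.iff_fg.2 h3
  exact Submodule.finiteDimensional_of_le h1

theorem bcomp_one' (h0 : 𝒜 0 = ⊥) : bcomp 𝒜 0 = ⊥ ∧ bcomp 𝒜 1 = ⊥ := by
  have key : ∀ n ≤ 1, bcomp 𝒜 n = ⊥ := by
    intro n hn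
    rw [bcomp, Submodule.span_eq_bot]
    rintro x ⟨i, j, hij, a, ha, b, hb, rfl⟩
    rcases Nat.eq_zero_or_pos i with hi | hi
    · subst hi
      rw [h0, Submodule.mem_bot] at ha
      rw [ha, map_zero, LinearMap.zero_apply]
    · have hj : j = 0 := by omega
      subst hj
      rw [h0, Submodule.mem_bot] at hb
      rw [hb, map_zero]
  exact ⟨key 0 (by omega), key 1 le_rfl⟩

end BGR

section Final

set_option linter.unusedSectionVars false

variable {k A : Type*} [Field k] [CharZero k] [NonUnitalNonAssocRing A] [Module k A]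
  [IsScalarTower k A A] [SMulCommClass k A A] (𝒜 : ℕ → Submodule k A)

theorem bcomp_internal (h : DirectSum.IsInternal 𝒜)
    (hm : ∀ m n, ∀ x ∈ 𝒜 m, ∀ y ∈ 𝒜 n, x * y ∈ 𝒜 (m + n)) :
    DirectSum.IsInternal (bcomp 𝒜) := bcomp_internal' 𝒜 h hm

theorem bcomp_finite (h : ∀ n, FiniteDimensional k (𝒜 n)) (n : ℕ) :
    FiniteDimensional k (bcomp 𝒜 n) := bcomp_finite' 𝒜 h n

theorem bcomp_one (h0 : 𝒜 0 = ⊥) : bcomp 𝒜 0 = ⊥ ∧ bcomp 𝒜 1 = ⊥ := bcomp_one' 𝒜 h0

end Final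

end Pool.Agent.Y779.KM
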